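import Mathlib
import Pool.Graph.R_seed8.H524R3.Asym
import Pool.Graph.R_seed8.H524R3.NoExp2

/-!
# Weighted incomplete Gauss sums
-/

set_option autoImplicit false

open Finset Filter Topology

namespace Pool.Agent.H905.WR

open H524R3

/-- Abel summation: a nonincreasing sequence against the differences of a bounded one. -/
theorem abel (b : ℕ → ℝ) (ψ : ℕ → ℂ) (N : ℕ) (h0 : ∀ i < N + 1, 0 ≤ b i)
    (hb : ∀ i < N, b (i + 1) ≤ b i) (hψ : ∀ i, ‖ψ i‖ ≤ 1) :
    ‖∑ i ∈ range N, (b i : ℂ) * (ψ (i + 1) - ψ i) - (b N : ℂ) * ψ N‖ ≤ 2 * b 0 - b N := by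
  induction N with
  | zero =>
    simp only [range_zero, sum_empty, zero_sub, norm_neg, norm_mul, Complex.norm_real,
      Real.norm_eq_abs]
    have h := h0 0 (by omega)
    rw [abs_of_nonneg h]
    nlinarith [hψ 0]
  | succ N ih =>
    have ih' := ih (fun i hi => h0 i (by omega)) (fun i hi => hb i (by omega))
    rw [sum_range_succ]
    have e : ∑ i ∈ range N, (b i : ℂ) * (ψ (i + 1) - ψ i) + (b N : ℂ) * (ψ (N + 1) - ψ N) -
        (b (N + 1) : ℂ) * ψ (N + 1) =
        (∑ i ∈ range N, (b i : ℂ) * (ψ (i + 1) - ψ i) - (b N : ℂ) * ψ N) +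
          ((b N - b (N + 1) : ℝ) : ℂ) * ψ (N + 1) := by push_cast; ring
    rw [e]
    have h1 : ‖((b N - b (N + 1) : ℝ) : ℂ) * ψ (N + 1)‖ ≤ b N - b (N + 1) := by
      have h2 := hb N (by omega)
      rw [norm_mul, Complex.norm_real, Real.norm_eq_abs, abs_of_nonneg (by linarith)]
      nlinarith [hψ (N + 1)]
    calc _ ≤ _ := norm_add_le _ _
      _ ≤ (2 * b 0 - b N) + (b N - b (N + 1)) := add_le_add ih' h1
      _ = _ := by ring

theorem abel' (b : ℕ → ℝ) (ψ : ℕ → ℂ) (N : ℕ) (h0 : ∀ i < N + 1, 0 ≤ b i)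
    (hb : ∀ i < N, b (i + 1) ≤ b i) (hψ : ∀ i, ‖ψ i‖ ≤ 1) :
    ‖∑ i ∈ range N, (b i : ℂ) * (ψ (i + 1) - ψ i)‖ ≤ 2 * b 0 := by
  have h := abel b ψ N h0 hb hψ
  have h1 : ‖(b N : ℂ) * ψ N‖ ≤ b N := by
    have h2 := h0 N (by omega)
    rw [norm_mul, Complex.norm_real, Real.norm_eq_abs, abs_of_nonneg h2]
    nlinarith [hψ N]
  calc ‖∑ i ∈ range N, (b i : ℂ) * (ψ (i + 1) - ψ i)‖
      = ‖(∑ i ∈ range N, (b i : ℂ) * (ψ (i + 1) - ψ i) - (b N : ℂ) * ψ N) + (b N : ℂ) * ψ N‖ := by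
        congr 1; ring
    _ ≤ _ := norm_add_le _ _
    _ ≤ (2 * b 0 - b N) + b N := add_le_add h h1
    _ = _ := by ring

/-- Alternating sums. -/
theorem alt (c : ℕ → ℂ) (N : ℕ) :
    ‖2 * ∑ i ∈ range N, (-1 : ℂ) ^ i * c i + (-1 : ℂ) ^ N * c N - c 0‖ ≤
      ∑ i ∈ range N, ‖c (i + 1) - c i‖ := by
  induction N with
  | zero => simp
  | succ N ih =>
    rw [sum_range_succ, sum_range_succ]
    have e : 2 * (∑ i ∈ range N, (-1 : ℂ) ^ i * c i + (-1 : ℂ) ^ N * c N) +
        (-1 : ℂ) ^ (N + 1) * c (N + 1) - c 0 =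
        (2 * ∑ i ∈ range N, (-1 : ℂ) ^ i * c i + (-1 : ℂ) ^ N * c N - c 0) -
          (-1 : ℂ) ^ N * (c (N + 1) - c N) := by ring
    rw [e]
    calc _ ≤ _ := norm_sub_le _ _
      _ ≤ _ := by
        refine add_le_add ih ?_
        rw [norm_mul, norm_pow, norm_neg, norm_one, one_pow, one_mul]

theorem alt' (c : ℕ → ℂ) (N : ℕ) :
    ‖∑ i ∈ range (N + 1), (-1 : ℂ) ^ i * c i‖ ≤
      (‖c 0‖ + ‖c N‖ + ∑ i ∈ range N, ‖c (i + 1) - c i‖) / 2 := by
  have h := alt c N
  have e : (2 : ℂ) * ∑ i ∈ range (N + 1), (-1 : ℂ) ^ i * c i =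
      (2 * ∑ i ∈ range N, (-1 : ℂ) ^ i * c i + (-1 : ℂ) ^ N * c N - c 0) + c 0 +
        (-1 : ℂ) ^ N * c N := by
    rw [sum_range_succ]; ring
  have h2 : ‖(2 : ℂ) * ∑ i ∈ range (N + 1), (-1 : ℂ) ^ i * c i‖ ≤
      (∑ i ∈ range N, ‖c (i + 1) - c i‖) + ‖c 0‖ + ‖c N‖ := by
    rw [e]
    refine (norm_add_le _ _).trans (add_le_add ((norm_add_le _ _).trans (add_le_add h le_rfl)) ?_)
    rw [norm_mul, norm_pow, norm_neg, norm_one, one_pow, one_mul]
  rw [norm_mul, Complex.norm_ofNat] at h2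
  linarith

/-- The lengths `1 + s i`. -/
noncomputable def jj (s i : ℕ) : ℝ := 1 + s * i

/-- The middle part of the sum. -/
theorem middle (s : ℕ) (hs1 : 1 ≤ s) (a : ℕ → ℝ) (θ K : ℝ) (hθ : 0 < θ) (I L : ℕ)
    (ha0 : ∀ i < I + L + 1, 0 ≤ a i) (hanti : ∀ i < I + L, a (i + 1) ≤ a i)
    (hK : a I ≤ K / (I + 1)) (hr : s * θ * jj s (I + L) ≤ 1 / 2) :
    ‖∑ i ∈ range L, (a (I + i) : ℂ) * E (θ * jj s (I + i) ^ 2)‖ ≤ K / (2 * θ * (I + 1) ^ 2) := by
  have hs : (1 : ℝ) ≤ s := by exact_mod_cast hs1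
  have hpi := Real.pi_pos
  have hj : ∀ i : ℕ, (i : ℝ) + 1 ≤ jj s i := by
    intro i
    unfold jj
    have : (0 : ℝ) ≤ i := Nat.cast_nonneg i
    nlinarith
  have hjm : ∀ i k : ℕ, i ≤ k → jj s i ≤ jj s k := by
    intro i k hik
    unfold jj
    have : (i : ℝ) ≤ k := by exact_mod_cast hik
    nlinarith
  -- the sines
  have hx : ∀ i < L + 1, 0 < s * θ * jj s (I + i) ∧ s * θ * jj s (I + i) ≤ 1 / 2 := by
    intro i hi
    have h1 := hj (I + i)
    have h2 := hjm (I + i) (I + L) (by omega)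
    have h3 : (0 : ℝ) ≤ ((I + i : ℕ) : ℝ) := Nat.cast_nonneg _
    have h4 : 0 < (s : ℝ) * θ := by positivity
    constructor
    · have : 0 < jj s (I + i) := by linarith
      positivity
    · exact (mul_le_mul_of_nonneg_left h2 h4.le).trans hr
  have hsin : ∀ i < L + 1, 2 * (s * θ * jj s (I + i)) ≤ Real.sin (Real.pi * (s * θ * jj s (I + i))) := by
    intro i hi
    obtain ⟨h1, h2⟩ := hx i hi
    have h3 := Real.mul_le_sin (x := Real.pi * (s * θ * jj s (I + i))) (by positivity) (by nlinarith)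
    have h4 : 2 / Real.pi * (Real.pi * (s * θ * jj s (I + i))) = 2 * (s * θ * jj s (I + i)) := by
      field_simp
    linarith
  have hsinpos : ∀ i < L + 1, 0 < Real.sin (Real.pi * (s * θ * jj s (I + i))) := by
    intro i hi
    have := hsin i hi
    have := (hx i hi).1
    linarith
  have hsinmono : ∀ i < L, Real.sin (Real.pi * (s * θ * jj s (I + i))) ≤
      Real.sin (Real.pi * (s * θ * jj s (I + (i + 1)))) := by
    intro i hi
    obtain ⟨h1, h2⟩ := hx i (by omega)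
    obtain ⟨h3, h4⟩ := hx (i + 1) (by omega)
    have h5 := hjm (I + i) (I + (i + 1)) (by omega)
    have h6 : 0 < (s : ℝ) * θ := by positivity
    have h7 := mul_le_mul_of_nonneg_left h5 h6.le
    apply Real.sin_le_sin_of_le_of_le_pi_div_two
    · nlinarith
    · nlinarith
    · exact mul_le_mul_of_nonneg_left h7 hpi.le
  set b : ℕ → ℝ := fun i => a (I + i) / (2 * Real.sin (Real.pi * (s * θ * jj s (I + i)))) with hb
  set ψ : ℕ → ℂ := fun i => E (θ * (jj s (I + i) ^ 2 - s * jj s (I + i))) with hψ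
  have key : ∀ i < L, (a (I + i) : ℂ) * E (θ * jj s (I + i) ^ 2) =
      -Complex.I * ((b i : ℂ) * (ψ (i + 1) - ψ i)) := by
    intro i hi
    have hsn := (hsinpos i (by omega)).ne'
    have hsn' : (Real.sin (Real.pi * (s * θ * jj s (I + i))) : ℂ) ≠ 0 := by exact_mod_cast hsn
    have e1 : ψ (i + 1) = E (θ * jj s (I + i) ^ 2) * E (s * θ * jj s (I + i)) := by
      rw [hψ, ← E_add]
      show E _ = E _
      congr 1
      unfold jj
      push_cast
      ring
    have e2 : ψ i = E (θ * jj s (I + i) ^ 2) * E (-(s * θ * jj s (I + i))) := by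
      rw [hψ, ← E_add]
      show E _ = E _
      congr 1
      ring
    have e3 : E (s * θ * jj s (I + i)) - E (-(s * θ * jj s (I + i))) =
        2 * Complex.I * (Real.sin (Real.pi * (s * θ * jj s (I + i))) : ℂ) := by
      rw [E_eq_cos_sin, E_eq_cos_sin]
      push_cast
      rw [mul_neg, Complex.cos_neg, Complex.sin_neg]
      ring
    rw [e1, e2, ← mul_sub, e3]
    have e4 : ((b i : ℝ) : ℂ) = (a (I + i) : ℂ) /
        (2 * ((Real.sin (Real.pi * (s * θ * jj s (I + i))) : ℝ) : ℂ)) := by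
      rw [hb]; simp only [Complex.ofReal_div, Complex.ofReal_mul, Complex.ofReal_ofNat]
    rw [e4]
    generalize ((Real.sin (Real.pi * (s * θ * jj s (I + i))) : ℝ) : ℂ) = S at hsn' ⊢
    field_simp
    rw [Complex.I_sq]
    ring
  have h1 : ∑ i ∈ range L, (a (I + i) : ℂ) * E (θ * jj s (I + i) ^ 2) =
      -Complex.I * ∑ i ∈ range L, (b i : ℂ) * (ψ (i + 1) - ψ i) := by
    rw [mul_sum]
    exact sum_congr rfl fun i hi => key i (mem_range.1 hi)
  rw [h1, norm_mul, norm_neg, Complex.norm_I, one_mul]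
  have hb0 : ∀ i < L + 1, 0 ≤ b i := fun i hi => div_nonneg (ha0 (I + i) (by omega))
    (mul_nonneg (by norm_num) (hsinpos i hi).le)
  have hb1 : ∀ i < L, b (i + 1) ≤ b i := by
    intro i hi
    have h3 := hsinpos i (by omega)
    have h4 := hsinmono i hi
    have h5 := hanti (I + i) (by omega)
    have h6 := ha0 (I + i) (by omega)
    show a (I + (i + 1)) / (2 * Real.sin (Real.pi * (s * θ * jj s (I + (i + 1))))) ≤
      a (I + i) / (2 * Real.sin (Real.pi * (s * θ * jj s (I + i))))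
    exact div_le_div₀ h6 h5 (by positivity) (by linarith)
  have h2 := abel' b ψ L hb0 hb1 (fun i => (E_norm _).le)
  refine h2.trans ?_
  have h3 : b 0 ≤ a I / (4 * (s * θ * jj s I)) := by
    show a (I + 0) / _ ≤ _
    rw [add_zero]
    have h4 := hsin 0 (by omega)
    have h5 := (hx 0 (by omega)).1
    rw [add_zero] at h4 h5
    apply div_le_div_of_nonneg_left (ha0 I (by omega)) (by positivity)
    linarith
  have h6 := hj I
  have hI : (0 : ℝ) ≤ I := Nat.cast_nonneg I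
  have ha := ha0 I (by omega)
  have h7 : a I / (4 * (s * θ * jj s I)) ≤ K / (I + 1) / (4 * (θ * (I + 1))) := by
    apply div_le_div₀
    · exact ha.trans hK
    · exact hK
    · positivity
    · have : θ * (I + 1) ≤ s * θ * jj s I := by
        have e : s * θ * jj s I = θ * (s * jj s I) := by ring
        rw [e]
        apply mul_le_mul_of_nonneg_left _ hθ.le
        nlinarith
      linarith
  calc 2 * b 0 ≤ 2 * (K / (I + 1) / (4 * (θ * (I + 1)))) := by linarith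
    _ = K / (2 * θ * (I + 1) ^ 2) := by field_simp; ring

end Pool.Agent.H905.WR
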