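import Mathlib
import Pool.Agent.H905.WR.Osc

/-!
# Lower bound for weighted incomplete Gauss sums
-/

set_option autoImplicit false

open Finset Filter Topology

namespace Pool.Agent.H905.WR

open H524R3

theorem norm_E_sub_one (x : ℝ) : ‖E x - 1‖ ≤ Real.pi * |x| := by
  have h : E x = Complex.exp (((Real.pi * x : ℝ) : ℂ) * Complex.I) := by
    unfold E; congr 1; push_cast; ring
  rw [h]
  have h2 := Real.norm_exp_I_mul_ofReal_sub_one_le (x := Real.pi * x)
  rw [mul_comm Complex.I] at h2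
  refine h2.trans (le_of_eq ?_)
  rw [Real.norm_eq_abs, abs_mul, abs_of_pos Real.pi_pos]

theorem jj_le (s i : ℕ) (hs1 : 1 ≤ s) : jj s i ≤ s * (i + 1) := by
  have hs : (1 : ℝ) ≤ s := by exact_mod_cast hs1
  unfold jj
  nlinarith

theorem jj_nonneg (s i : ℕ) : 0 ≤ jj s i := by unfold jj; positivity

/-- The first part of the sum. -/
theorem head (s n r : ℕ) (hs1 : 1 ≤ s) (hs2 : s ≤ 2) (hr : 1 ≤ r) (a : ℕ → ℝ)
    (h0 : ∀ i < Nat.sqrt r, 0 ≤ a i) (hK : ∀ i < Nat.sqrt r, a i ≤ r / (i + 1)) :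
    ‖∑ i ∈ range (Nat.sqrt r), (a i : ℂ) * E (n / (2 * r) * jj s i ^ 2) -
      ((∑ i ∈ range (Nat.sqrt r), a i : ℝ) : ℂ)‖ ≤ 7 * n * r := by
  have hr' : (0 : ℝ) < r := by exact_mod_cast hr
  have hn : (0 : ℝ) ≤ n := Nat.cast_nonneg n
  have hs : (1 : ℝ) ≤ s := by exact_mod_cast hs1
  have hs' : (s : ℝ) ≤ 2 := by exact_mod_cast hs2
  have h1 : ‖∑ i ∈ range (Nat.sqrt r), (a i : ℂ) * E (n / (2 * r) * jj s i ^ 2) -
      ((∑ i ∈ range (Nat.sqrt r), a i : ℝ) : ℂ)‖ ≤ 7 * n * r := by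
    rw [Complex.ofReal_sum, ← sum_sub_distrib]
    refine (norm_sum_le _ _).trans ?_
    have h2 : ∀ i ∈ range (Nat.sqrt r), ‖(a i : ℂ) * E (n / (2 * r) * jj s i ^ 2) - (a i : ℂ)‖ ≤
        2 * Real.pi * n * Nat.sqrt r := by
      intro i hi
      rw [mem_range] at hi
      have e : (a i : ℂ) * E (n / (2 * r) * jj s i ^ 2) - (a i : ℂ) =
          (a i : ℂ) * (E (n / (2 * r) * jj s i ^ 2) - 1) := by ring
      rw [e, norm_mul, Complex.norm_real, Real.norm_eq_abs, abs_of_nonneg (h0 i hi)]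
      have h3 := norm_E_sub_one (n / (2 * r) * jj s i ^ 2)
      rw [abs_of_nonneg (by positivity)] at h3
      have h4 := hK i hi
      have h5 := jj_le s i hs1
      have h6 := jj_nonneg s i
      have hi' : (0 : ℝ) ≤ i := Nat.cast_nonneg i
      have h7 : jj s i ^ 2 ≤ (2 * ((i : ℝ) + 1)) ^ 2 := by
        apply pow_le_pow_left₀ h6
        nlinarith
      have h8 : (i : ℝ) + 1 ≤ Nat.sqrt r := by
        have : i + 1 ≤ Nat.sqrt r := hi
        exact_mod_cast this
      calc a i * ‖E (n / (2 * r) * jj s i ^ 2) - 1‖ ≤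
          (r / (i + 1)) * (Real.pi * (n / (2 * r) * (2 * ((i : ℝ) + 1)) ^ 2)) := by
            apply mul_le_mul h4 _ (norm_nonneg _) (by positivity)
            refine h3.trans ?_
            apply mul_le_mul_of_nonneg_left _ Real.pi_pos.le
            apply mul_le_mul_of_nonneg_left h7 (by positivity)
        _ = 2 * Real.pi * n * ((i : ℝ) + 1) := by
            field_simp
        _ ≤ 2 * Real.pi * n * Nat.sqrt r := by
            apply mul_le_mul_of_nonneg_left h8
            have := Real.pi_pos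
            positivity
    refine (sum_le_sum h2).trans ?_
    rw [sum_const, card_range, nsmul_eq_mul]
    have h9 : ((Nat.sqrt r : ℕ) : ℝ) * (Nat.sqrt r : ℕ) ≤ r := by
      exact_mod_cast Nat.sqrt_le r
    have h10 : 2 * Real.pi ≤ 7 := by linarith [Real.pi_lt_d2]
    calc ((Nat.sqrt r : ℕ) : ℝ) * (2 * Real.pi * n * (Nat.sqrt r : ℕ)) =
        (2 * Real.pi) * n * (((Nat.sqrt r : ℕ) : ℝ) * (Nat.sqrt r : ℕ)) := by ring
      _ ≤ 7 * n * r := by
        apply mul_le_mul _ h9 (by positivity) (by positivity)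
        exact mul_le_mul_of_nonneg_right h10 hn
  exact h1

theorem norm_sum_aE_le (a : ℕ → ℝ) (x : ℕ → ℝ) (A : Finset ℕ) (c : ℝ) (h0 : ∀ i ∈ A, 0 ≤ a i)
    (hc : ∀ i ∈ A, a i ≤ c) : ‖∑ i ∈ A, (a i : ℂ) * E (x i)‖ ≤ A.card * c := by
  refine (norm_sum_le _ _).trans ?_
  rw [← nsmul_eq_mul, ← sum_const]
  refine sum_le_sum fun i hi => ?_
  rw [norm_mul, Complex.norm_real, Real.norm_eq_abs, abs_of_nonneg (h0 i hi), E_norm, mul_one]
  exact hc i hi

/-- **The main estimate.** -/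
theorem approx (s n r N : ℕ) (hs1 : 1 ≤ s) (hs2 : s ≤ 2) (hn1 : 1 ≤ n) (hr : 1 ≤ r)
    (hN : Nat.sqrt r < N) (hNr : N ≤ r) (a : ℕ → ℝ) (h0 : ∀ i < N, 0 ≤ a i)
    (hanti : ∀ i, i + 1 < N → a (i + 1) ≤ a i) (hK : ∀ i < N, a i ≤ r / (i + 1)) :
    ‖∑ i ∈ range N, (a i : ℂ) * E (n / (2 * r) * jj s i ^ 2) -
      ((∑ i ∈ range (Nat.sqrt r), a i : ℝ) : ℂ)‖ ≤ 15 * n * r := by
  have hr' : (0 : ℝ) < r := by exact_mod_cast hr
  have hn' : (1 : ℝ) ≤ n := by exact_mod_cast hn1
  set I := Nat.sqrt r with hI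
  have hI1 : 1 ≤ I := Nat.sqrt_pos.2 hr
  set q := (r / (s * n) - 1) / s with hq
  have hsn : 0 < s * n := by positivity
  have hq1 : 1 ≤ q → s * n * (1 + s * q) ≤ r := by
    intro h
    have h1 : s * q ≤ r / (s * n) - 1 := Nat.mul_div_le _ _
    have h2 : 1 ≤ s * q := Nat.one_le_iff_ne_zero.2 (by positivity)
    have h3 : 1 + s * q ≤ r / (s * n) := by omega
    exact (Nat.mul_le_mul_left _ h3).trans (Nat.mul_div_le _ _)
  have hq2 : r ≤ 6 * n * (q + 1) := by
    have h1 : r / (s * n) - 1 < s * (q + 1) :=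
      Nat.lt_mul_div_succ (r / (s * n) - 1) (by omega : 0 < s)
    have h2 : r < s * n * (r / (s * n) + 1) := by
      have := Nat.lt_mul_div_succ r hsn
      simpa [Nat.succ_eq_add_one] using this
    have h3 : r / (s * n) + 1 ≤ s * (q + 1) + 1 := by omega
    have h4 : s * (q + 1) + 1 ≤ (s + 1) * (q + 1) := by nlinarith
    have h5 : s * n * (r / (s * n) + 1) ≤ s * n * ((s + 1) * (q + 1)) :=
      Nat.mul_le_mul_left _ (h3.trans h4)
    have h6 : s * n * ((s + 1) * (q + 1)) = (s * (s + 1)) * (n * (q + 1)) := by ring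
    have h7 : s * (s + 1) ≤ 6 := by
      have : s = 1 ∨ s = 2 := by omega
      rcases this with h | h <;> rw [h] <;> norm_num
    have h8 : (s * (s + 1)) * (n * (q + 1)) ≤ 6 * (n * (q + 1)) := Nat.mul_le_mul_right _ h7
    calc r ≤ s * n * (r / (s * n) + 1) := h2.le
      _ ≤ s * n * ((s + 1) * (q + 1)) := h5
      _ = (s * (s + 1)) * (n * (q + 1)) := h6
      _ ≤ 6 * (n * (q + 1)) := h8
      _ = 6 * n * (q + 1) := by ring
  -- the point `J`
  obtain ⟨J, hIJ, hJN, hJ1, hJ2⟩ : ∃ J, I ≤ J ∧ J < N ∧ (J = I ∨ s * n * (1 + s * J) ≤ r) ∧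
      ‖∑ i ∈ Ico J N, (a i : ℂ) * E (n / (2 * r) * jj s i ^ 2)‖ ≤ 7 * n * r := by
    by_cases hqN : q < N - 1
    · refine ⟨max I q, le_max_left _ _, by omega, ?_, ?_⟩
      · rcases le_or_gt q I with h | h
        · left; exact max_eq_left h
        · right
          rw [max_eq_right h.le]
          exact hq1 (by omega)
      · have h1 : ∀ i ∈ Ico (max I q) N, a i ≤ 6 * n := by
          intro i hi
          rw [mem_Ico] at hi
          refine (hK i hi.2).trans ?_
          rw [div_le_iff₀ (by positivity)]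
          have h2 : (r : ℝ) ≤ 6 * n * (q + 1) := by exact_mod_cast hq2
          have h3 : (q : ℝ) ≤ i := by
            have : q ≤ i := (le_max_right _ _).trans hi.1
            exact_mod_cast this
          nlinarith
        have h2 := norm_sum_aE_le a (fun i => n / (2 * r) * jj s i ^ 2) (Ico (max I q) N) (6 * n)
          (fun i hi => h0 i (mem_Ico.1 hi).2) h1
        refine h2.trans ?_
        rw [Nat.card_Ico]
        have h3 : ((N - max I q : ℕ) : ℝ) ≤ r := by
          have : N - max I q ≤ r := by omega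
          exact_mod_cast this
        nlinarith
    · refine ⟨N - 1, by omega, by omega, ?_, ?_⟩
      · right
        have h1 : N - 1 ≤ q := by omega
        have h2 := hq1 (by omega)
        exact (Nat.mul_le_mul_left _ (Nat.add_le_add_left (Nat.mul_le_mul_left _ h1) _)).trans h2
      · have h1 : ∀ i ∈ Ico (N - 1) N, a i ≤ r := by
          intro i hi
          rw [mem_Ico] at hi
          refine (hK i hi.2).trans ?_
          rw [div_le_iff₀ (by positivity)]
          have : (0 : ℝ) ≤ i := Nat.cast_nonneg i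
          nlinarith
        have h2 := norm_sum_aE_le a (fun i => n / (2 * r) * jj s i ^ 2) (Ico (N - 1) N) r
          (fun i hi => h0 i (mem_Ico.1 hi).2) h1
        refine h2.trans ?_
        rw [Nat.card_Ico]
        have h3 : ((N - (N - 1) : ℕ) : ℝ) ≤ 1 := by
          have : N - (N - 1) ≤ 1 := by omega
          exact_mod_cast this
        nlinarith
  -- the middle part
  have hmid : ‖∑ i ∈ Ico I J, (a i : ℂ) * E (n / (2 * r) * jj s i ^ 2)‖ ≤ r := by
    rcases hJ1 with h | h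
    · rw [h, Ico_self, sum_empty, norm_zero]; exact hr'.le
    · have h1 := middle s hs1 a (n / (2 * r)) r (by positivity) I (J - I)
        (fun i hi => h0 i (by omega)) (fun i hi => hanti i (by omega)) (hK I (by omega)) (by
          have e : I + (J - I) = J := by omega
          rw [e]
          unfold jj
          have h2 : (s : ℝ) * n * (1 + s * J) ≤ r := by exact_mod_cast h
          have e2 : (s : ℝ) * (n / (2 * r)) * (1 + s * J) = (s * n * (1 + s * J)) / (2 * r) := by
            ring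
          rw [e2, div_le_iff₀ (by positivity)]
          linarith)
      rw [sum_Ico_eq_sum_range]
      refine h1.trans ?_
      have h2 : (r : ℝ) < (I + 1) ^ 2 := by
        have : r < (I + 1) * (I + 1) := Nat.lt_succ_sqrt r
        have h3 : (r : ℝ) < (I + 1) * (I + 1) := by exact_mod_cast this
        nlinarith
      rw [div_le_iff₀ (by positivity)]
      have h3 : (2 : ℝ) * (n / (2 * r)) = n / r := by field_simp
      rw [h3]
      have h4 : (r : ℝ) * (n / r * (I + 1) ^ 2) = n * (I + 1) ^ 2 := by field_simp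
      rw [h4]
      nlinarith
  have hhead := head s n r hs1 hs2 hr a (fun i hi => h0 i (by omega)) (fun i hi => hK i (by omega))
  have hsplit : ∑ i ∈ range N, (a i : ℂ) * E (n / (2 * r) * jj s i ^ 2) =
      ∑ i ∈ range I, (a i : ℂ) * E (n / (2 * r) * jj s i ^ 2) +
        (∑ i ∈ Ico I J, (a i : ℂ) * E (n / (2 * r) * jj s i ^ 2) +
        ∑ i ∈ Ico J N, (a i : ℂ) * E (n / (2 * r) * jj s i ^ 2)) := by
    rw [sum_Ico_consecutive _ hIJ hJN.le, sum_range_add_sum_Ico _ hN.le]
  rw [hsplit]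
  have h5 := norm_add_le (∑ i ∈ range I, (a i : ℂ) * E (n / (2 * r) * jj s i ^ 2) -
      ((∑ i ∈ range I, a i : ℝ) : ℂ))
    (∑ i ∈ Ico I J, (a i : ℂ) * E (n / (2 * r) * jj s i ^ 2) +
        ∑ i ∈ Ico J N, (a i : ℂ) * E (n / (2 * r) * jj s i ^ 2))
  have h6 := norm_add_le (∑ i ∈ Ico I J, (a i : ℂ) * E (n / (2 * r) * jj s i ^ 2))
    (∑ i ∈ Ico J N, (a i : ℂ) * E (n / (2 * r) * jj s i ^ 2))
  have h7 : (r : ℝ) ≤ n * r := by nlinarith
  have e : ∀ x y z : ℂ, x + y - z = x - z + y := fun x y z => by ring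
  rw [e]
  linarith

end Pool.Agent.H905.WR
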