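import Mathlib
import Pool.Graph.R_seed8.H524R3.Defs

/-!
# Two families of plumbing trees
-/

set_option autoImplicit false

open Finset

namespace Pool.Agent.H905.WR

open H524R3

/-- The tree with adjacent vertices 0 (framing n) and 1 (framing 0), to each of which two leaves of
framings 2 and -2 are attached: the Seifert manifold with Euler number n and two exceptional fibres of
type (2, 1), (2, -1) over the projective plane. For n = 0 it is the Hantzsche-Wendt manifold. -/
def semiTree (n : ℤ) : PlumbingTree 5 where
  parent := ![0, 0, 0, 1, 1]
  parent_le := by decide
  framing := ![n, 0, 2, -2, 2, -2]

/-- The tree with a vertex 0 of framing n joined to three vertices 1, 2, 3 of framing 0, to each of which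
two leaves of framings 2 and -2 are attached: the circle bundle of Euler number n, with orientable total
space, over the nonorientable surface of genus 3. -/
def threeTree (n : ℤ) : PlumbingTree 9 where
  parent := ![0, 0, 0, 1, 1, 2, 2, 3, 3]
  parent_le := by decide
  framing := ![n, 0, 0, 0, 2, -2, 2, -2, 2, -2]

end Pool.Agent.H905.WR
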