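import Mathlib
import Pool.Graph.R_seed8.H524R3.Closed
import Pool.Agent.H905.WR.Defs

/-!
# Closed formula for the first family
-/

set_option autoImplicit false

open Finset

namespace Pool.Agent.H905.WR

open H524R3

theorem sm_pos (r n : ℕ) (h0 : 1 ≤ n) (h1 : n < r) : 0 < sm r 1 n := by
  have h1' : (1 : ℝ) ≤ n := by exact_mod_cast h0
  have h2 : (n : ℝ) < r := by exact_mod_cast h1
  unfold sm
  have hr' : (0 : ℝ) < r := by linarith
  refine mul_pos (Real.sqrt_pos.mpr (by positivity)) (Real.sin_pos_of_pos_of_lt_pi ?_ ?_)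
  · push_cast; positivity
  · push_cast
    rw [one_mul]
    have : (n : ℝ) / r < 1 := by rw [div_lt_one hr']; exact h2
    nlinarith [Real.pi_pos]

theorem zpow_neg_two (x : ℂ) : x ^ (-2 : ℤ) = (x ^ 2)⁻¹ := by
  rw [zpow_neg]; norm_cast

theorem alg_semi (b U V P Q S T X PU QU SV TV a0 a1 a2 a3 a4 : ℂ) (hb : b ≠ 0) (hU : U ≠ 0)
    (hV : V ≠ 0) :
    b ^ 7 *
      (U / b * (V / b * (P / b * (Q / b * (S / b * (T / b))))) *
        (a0 * (a1 * (a2 * (a3 * a4))) * (((U / b) ^ 2)⁻¹ * ((V / b) ^ 2)⁻¹) *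
          (X / b * (PU / b * (QU / b * (SV / b * (TV / b))))))) =
    a0 * (X / (U * V)) * (P * PU * a1) * (Q * QU * a2) * (S * SV * a3) * (T * TV * a4) := by
  field_simp

theorem wrt_semi_eq (n : ℤ) (r : ℕ) (hr : 2 ≤ r) :
    (semiTree n).wrt r = ∑ u ∈ Icc 1 (r - 1), ∑ v ∈ Icc 1 (r - 1),
      twist r u ^ n * ((sm r v u : ℝ) : ℂ) * (leaf r 2 u * leaf r (-2) u / (sm r 1 u : ℝ)) *
        (leaf r 2 v * leaf r (-2) v / (sm r 1 v : ℝ)) := by
  unfold PlumbingTree.wrt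
  simp only [sum_piFinset_cons, sum_piFinset_zero]
  rw [Finset.mul_sum]
  refine Finset.sum_congr rfl fun u hu => ?_
  rw [Finset.mul_sum]
  refine Finset.sum_congr rfl fun v hv => ?_
  have hb : ((bb r : ℝ) : ℂ) ≠ 0 := by exact_mod_cast (bb_pos r hr).ne'
  have hpos : ∀ n ∈ Icc 1 (r - 1), ((sm r 1 n : ℝ) : ℂ) ≠ 0 := by
    intro n hn
    rw [mem_Icc] at hn
    exact_mod_cast (sm_pos r n hn.1 (by omega)).ne'
  have hu0 := hpos u hu
  have hv0 := hpos v hv
  have hterm : ∀ p q s t : ℕ,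
      ((Real.sqrt (2 / r) * Real.sin (Real.pi / r) : ℝ) : ℂ) ^ (5 + 2) *
        ((∏ w, (qint r (![u, v, p, q, s, t] w) : ℂ)) *
          (semiTree n).colouredJones r ![u, v, p, q, s, t]) =
      (twist r u ^ n * (((sm r v u : ℝ) : ℂ) / ((sm r 1 u : ℝ) * (sm r 1 v : ℝ)))) *
        (((sm r 1 p * sm r p u : ℝ) : ℂ) * twist r p ^ (2 : ℤ)) *
        (((sm r 1 q * sm r q u : ℝ) : ℂ) * twist r q ^ (-2 : ℤ)) *
        (((sm r 1 s * sm r s v : ℝ) : ℂ) * twist r s ^ (2 : ℤ)) *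
        (((sm r 1 t * sm r t v : ℝ) : ℂ) * twist r t ^ (-2 : ℤ)) := by
    intro p q s t
    have hbb : ((Real.sqrt (2 / r) * Real.sin (Real.pi / r) : ℝ) : ℂ) = ((bb r : ℝ) : ℂ) := rfl
    rw [hbb]
    unfold PlumbingTree.colouredJones
    simp only [Fin.prod_univ_succ, Fin.prod_univ_zero]
    have f0 : (semiTree n).framing 0 = n := rfl
    have f1 : (semiTree n).framing (Fin.succ 0) = 0 := rfl
    have f2 : (semiTree n).framing (Fin.succ (Fin.succ 0)) = 2 := rfl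
    have f3 : (semiTree n).framing (Fin.succ (Fin.succ (Fin.succ 0))) = -2 := rfl
    have f4 : (semiTree n).framing (Fin.succ (Fin.succ (Fin.succ (Fin.succ 0)))) = 2 := rfl
    have f5 : (semiTree n).framing (Fin.succ (Fin.succ (Fin.succ (Fin.succ (Fin.succ 0))))) = -2 := rfl
    have p0 : (semiTree n).parent 0 = 0 := rfl
    have p1 : (semiTree n).parent (Fin.succ 0) = 0 := rfl
    have p2 : (semiTree n).parent (Fin.succ (Fin.succ 0)) = 0 := rfl
    have p3 : (semiTree n).parent (Fin.succ (Fin.succ (Fin.succ 0))) = 1 := rfl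
    have p4 : (semiTree n).parent (Fin.succ (Fin.succ (Fin.succ (Fin.succ 0)))) = 1 := rfl
    have d0 : (semiTree n).degree 0 = 3 := deg0
    have d1 : (semiTree n).degree (Fin.succ 0) = 3 := deg1
    have d2 : (semiTree n).degree (Fin.succ (Fin.succ 0)) = 1 := deg2
    have d3 : (semiTree n).degree (Fin.succ (Fin.succ (Fin.succ 0))) = 1 := deg3
    have d4 : (semiTree n).degree (Fin.succ (Fin.succ (Fin.succ (Fin.succ 0)))) = 1 := deg4
    have d5 : (semiTree n).degree (Fin.succ (Fin.succ (Fin.succ (Fin.succ (Fin.succ 0))))) = 1 := deg5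
    have k0 : (![u, v, p, q, s, t] : Fin 6 → ℕ) 0 = u := rfl
    have k1 : (![u, v, p, q, s, t] : Fin 6 → ℕ) (Fin.succ 0) = v := rfl
    have k1' : (![u, v, p, q, s, t] : Fin 6 → ℕ) 1 = v := rfl
    have k2 : (![u, v, p, q, s, t] : Fin 6 → ℕ) (Fin.succ (Fin.succ 0)) = p := rfl
    have k3 : (![u, v, p, q, s, t] : Fin 6 → ℕ) (Fin.succ (Fin.succ (Fin.succ 0))) = q := rfl
    have k4 : (![u, v, p, q, s, t] : Fin 6 → ℕ) (Fin.succ (Fin.succ (Fin.succ (Fin.succ 0)))) = s := rfl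
    have k5 : (![u, v, p, q, s, t] : Fin 6 → ℕ)
      (Fin.succ (Fin.succ (Fin.succ (Fin.succ (Fin.succ 0))))) = t := rfl
    simp only [f0, f1, f2, f3, f4, f5, p0, p1, p2, p3, p4, d0, d1, d2, d3, d4, d5, k0, k1, k1', k2, k3,
      k4, k5, qint_mul_eq r _ _ hr]
    simp only [qint_eq r _ hr]
    have hz1 : (1 : ℤ) - ((3 : ℕ) : ℤ) = -2 := by norm_num
    have hz2 : (1 : ℤ) - ((1 : ℕ) : ℤ) = 0 := by norm_num
    rw [hz1, hz2]
    simp only [zpow_zero, mul_one, one_mul]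
    rw [zpow_neg_two (((sm r 1 u / bb r : ℝ) : ℂ)), zpow_neg_two (((sm r 1 v / bb r : ℝ) : ℂ))]
    push_cast
    exact alg_semi _ _ _ _ _ _ _ _ _ _ _ _ _ _ _ _ _ hb hu0 hv0
  simp only [Finset.mul_sum]
  refine (Finset.sum_congr rfl fun p _ => Finset.sum_congr rfl fun q _ => Finset.sum_congr rfl
    fun s _ => Finset.sum_congr rfl fun t _ => hterm p q s t).trans ?_
  rw [sum_four]
  unfold leaf
  field_simp

theorem wrt_semi (n : ℤ) (r : ℕ) (hr : 2 ≤ r) :
    (semiTree n).wrt r = ∑ u ∈ Icc 1 (r - 1),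
      twist r u ^ n * (((-1 : ℝ) ^ (u + 1) * wv r u : ℝ) : ℂ) := by
  rw [wrt_semi_eq n r hr]
  refine sum_congr rfl fun u hu => ?_
  rw [mem_Icc] at hu
  rw [← sum_sm_wv r u (by omega) (by omega)]
  push_cast
  rw [Finset.sum_mul, mul_sum]
  refine Finset.sum_congr rfl fun v hv => ?_
  rw [mem_Icc] at hv
  rw [leaf_div r u (by omega) (by omega), leaf_div r v (by omega) (by omega)]
  ring

end Pool.Agent.H905.WR
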