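import Mathlib
import Pool.Graph.R_seed8.H524R3.Closed
import Pool.Agent.H905.WR.Defs
import Pool.Agent.H905.WR.Semi

/-!
# Closed formula for the second family
-/

set_option autoImplicit false

open Finset

namespace Pool.Agent.H905.WR

open H524R3

theorem tdeg0 : (threeTree 0).degree 0 = 3 := by decide
theorem tdeg1 : (threeTree 0).degree 1 = 3 := by decide
theorem tdeg2 : (threeTree 0).degree 2 = 3 := by decide
theorem tdeg3 : (threeTree 0).degree 3 = 3 := by decide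
theorem tdeg4 : (threeTree 0).degree 4 = 1 := by decide
theorem tdeg5 : (threeTree 0).degree 5 = 1 := by decide
theorem tdeg6 : (threeTree 0).degree 6 = 1 := by decide
theorem tdeg7 : (threeTree 0).degree 7 = 1 := by decide
theorem tdeg8 : (threeTree 0).degree 8 = 1 := by decide
theorem tdeg9 : (threeTree 0).degree 9 = 1 := by decide

theorem sum_six (A : Finset ℕ) (c : ℂ) (f1 f2 f3 f4 f5 f6 : ℕ → ℂ) :
    ∑ p1 ∈ A, ∑ q1 ∈ A, ∑ p2 ∈ A, ∑ q2 ∈ A, ∑ p3 ∈ A, ∑ q3 ∈ A,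
      c * f1 p1 * f2 q1 * f3 p2 * f4 q2 * f5 p3 * f6 q3 =
      c * (∑ p ∈ A, f1 p) * (∑ p ∈ A, f2 p) * (∑ p ∈ A, f3 p) * (∑ p ∈ A, f4 p) *
        (∑ p ∈ A, f5 p) * (∑ p ∈ A, f6 p) := by
  simp only [← Finset.mul_sum, ← Finset.sum_mul]

theorem alg_three_a (b U V1 V2 V3 L X Y W a : ℂ) (hb : b ≠ 0) (hU : U ≠ 0) (hV1 : V1 ≠ 0)
    (hV2 : V2 ≠ 0) (hV3 : V3 ≠ 0) :
    b ^ 11 * ((U / b * V1 / b * V2 / b * V3 / b * (L / b ^ 6)) *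
      (a * (((U / b) ^ 2)⁻¹ * ((V1 / b) ^ 2)⁻¹ * ((V2 / b) ^ 2)⁻¹ * ((V3 / b) ^ 2)⁻¹) *
        (X / b ^ 3 * (Y / b ^ 6)))) = a * (X / (U * V1 * V2 * V3)) * (L * Y) := by
  field_simp

theorem alg_three (b U V1 V2 V3 P1 Q1 P2 Q2 P3 Q3 X1 X2 X3 R1 S1 R2 S2 R3 S3 a0 a1 a2 a3 a4 a5 a6 : ℂ)
    (hb : b ≠ 0) (hU : U ≠ 0) (hV1 : V1 ≠ 0) (hV2 : V2 ≠ 0) (hV3 : V3 ≠ 0) :
    b ^ 11 *
      (U / b * (V1 / b * (V2 / b * (V3 / b * (P1 / b * (Q1 / b * (P2 / b * (Q2 / b *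
        (P3 / b * (Q3 / b))))))))) *
        (a0 * (a1 * (a2 * (a3 * (a4 * (a5 * a6))))) *
          (((U / b) ^ 2)⁻¹ * (((V1 / b) ^ 2)⁻¹ * (((V2 / b) ^ 2)⁻¹ * ((V3 / b) ^ 2)⁻¹))) *
          (X1 / b * (X2 / b * (X3 / b * (R1 / b * (S1 / b * (R2 / b * (S2 / b *
            (R3 / b * (S3 / b))))))))))) =
    a0 * (X1 * X2 * X3 / (U * V1 * V2 * V3)) * (P1 * R1 * a1) * (Q1 * S1 * a2) * (P2 * R2 * a3) *
      (Q2 * S2 * a4) * (P3 * R3 * a5) * (Q3 * S3 * a6) := by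
  have h := alg_three_a b U V1 V2 V3 (P1 * Q1 * P2 * Q2 * P3 * Q3) (X1 * X2 * X3)
    (R1 * S1 * R2 * S2 * R3 * S3) 0 (a0 * (a1 * a2 * a3 * a4 * a5 * a6)) hb hU hV1 hV2 hV3
  have e1 : a0 * (X1 * X2 * X3 / (U * V1 * V2 * V3)) * (P1 * R1 * a1) * (Q1 * S1 * a2) *
      (P2 * R2 * a3) * (Q2 * S2 * a4) * (P3 * R3 * a5) * (Q3 * S3 * a6) =
      a0 * (a1 * a2 * a3 * a4 * a5 * a6) * (X1 * X2 * X3 / (U * V1 * V2 * V3)) *
        (P1 * Q1 * P2 * Q2 * P3 * Q3 * (R1 * S1 * R2 * S2 * R3 * S3)) := by ring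
  rw [e1, ← h]
  ring

theorem term_three (n : ℤ) (r : ℕ) (hr : 2 ≤ r) (u v1 v2 v3 p1 q1 p2 q2 p3 q3 : ℕ)
    (hu0 : ((sm r 1 u : ℝ) : ℂ) ≠ 0) (hv1 : ((sm r 1 v1 : ℝ) : ℂ) ≠ 0)
    (hv2 : ((sm r 1 v2 : ℝ) : ℂ) ≠ 0) (hv3 : ((sm r 1 v3 : ℝ) : ℂ) ≠ 0) :
    ((Real.sqrt (2 / r) * Real.sin (Real.pi / r) : ℝ) : ℂ) ^ (9 + 2) *
        ((∏ w, (qint r (![u, v1, v2, v3, p1, q1, p2, q2, p3, q3] w) : ℂ)) *
          (threeTree n).colouredJones r ![u, v1, v2, v3, p1, q1, p2, q2, p3, q3]) =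
      (twist r u ^ n * (((sm r v1 u : ℝ) : ℂ) * ((sm r v2 u : ℝ) : ℂ) * ((sm r v3 u : ℝ) : ℂ) /
        ((sm r 1 u : ℝ) * (sm r 1 v1 : ℝ) * (sm r 1 v2 : ℝ) * (sm r 1 v3 : ℝ)))) *
        (((sm r 1 p1 * sm r p1 v1 : ℝ) : ℂ) * twist r p1 ^ (2 : ℤ)) *
        (((sm r 1 q1 * sm r q1 v1 : ℝ) : ℂ) * twist r q1 ^ (-2 : ℤ)) *
        (((sm r 1 p2 * sm r p2 v2 : ℝ) : ℂ) * twist r p2 ^ (2 : ℤ)) *
        (((sm r 1 q2 * sm r q2 v2 : ℝ) : ℂ) * twist r q2 ^ (-2 : ℤ)) *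
        (((sm r 1 p3 * sm r p3 v3 : ℝ) : ℂ) * twist r p3 ^ (2 : ℤ)) *
        (((sm r 1 q3 * sm r q3 v3 : ℝ) : ℂ) * twist r q3 ^ (-2 : ℤ)) := by
  have hb : ((bb r : ℝ) : ℂ) ≠ 0 := by exact_mod_cast (bb_pos r hr).ne'
  have hbb : ((Real.sqrt (2 / r) * Real.sin (Real.pi / r) : ℝ) : ℂ) = ((bb r : ℝ) : ℂ) := rfl
  rw [hbb]
  unfold PlumbingTree.colouredJones
  simp only [Fin.prod_univ_succ, Fin.prod_univ_zero]
  have f0 : (threeTree n).framing 0 = n := rfl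
  have f1 : (threeTree n).framing (Fin.succ 0) = 0 := rfl
  have f2 : (threeTree n).framing (Fin.succ (Fin.succ 0)) = 0 := rfl
  have f3 : (threeTree n).framing (Fin.succ (Fin.succ (Fin.succ 0))) = 0 := rfl
  have f4 : (threeTree n).framing (Fin.succ (Fin.succ (Fin.succ (Fin.succ 0)))) = 2 := rfl
  have f5 : (threeTree n).framing (Fin.succ (Fin.succ (Fin.succ (Fin.succ (Fin.succ 0))))) = -2 := rfl
  have f6 : (threeTree n).framing (Fin.succ (Fin.succ (Fin.succ (Fin.succ (Fin.succ (Fin.succ 0)))))) = 2 := rfl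
  have f7 : (threeTree n).framing (Fin.succ (Fin.succ (Fin.succ (Fin.succ (Fin.succ (Fin.succ (Fin.succ 0))))))) = -2 := rfl
  have f8 : (threeTree n).framing (Fin.succ (Fin.succ (Fin.succ (Fin.succ (Fin.succ (Fin.succ (Fin.succ (Fin.succ 0)))))))) = 2 := rfl
  have f9 : (threeTree n).framing (Fin.succ (Fin.succ (Fin.succ (Fin.succ (Fin.succ (Fin.succ (Fin.succ (Fin.succ (Fin.succ 0))))))))) = -2 := rfl
  have r0 : (threeTree n).parent 0 = 0 := rfl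
  have r1 : (threeTree n).parent (Fin.succ 0) = 0 := rfl
  have r2 : (threeTree n).parent (Fin.succ (Fin.succ 0)) = 0 := rfl
  have r3 : (threeTree n).parent (Fin.succ (Fin.succ (Fin.succ 0))) = 1 := rfl
  have r4 : (threeTree n).parent (Fin.succ (Fin.succ (Fin.succ (Fin.succ 0)))) = 1 := rfl
  have r5 : (threeTree n).parent (Fin.succ (Fin.succ (Fin.succ (Fin.succ (Fin.succ 0))))) = 2 := rfl
  have r6 : (threeTree n).parent (Fin.succ (Fin.succ (Fin.succ (Fin.succ (Fin.succ (Fin.succ 0)))))) = 2 := rfl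
  have r7 : (threeTree n).parent (Fin.succ (Fin.succ (Fin.succ (Fin.succ (Fin.succ (Fin.succ (Fin.succ 0))))))) = 3 := rfl
  have r8 : (threeTree n).parent (Fin.succ (Fin.succ (Fin.succ (Fin.succ (Fin.succ (Fin.succ (Fin.succ (Fin.succ 0)))))))) = 3 := rfl
  have d0 : (threeTree n).degree 0 = 3 := tdeg0
  have d1 : (threeTree n).degree (Fin.succ 0) = 3 := tdeg1
  have d2 : (threeTree n).degree (Fin.succ (Fin.succ 0)) = 3 := tdeg2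
  have d3 : (threeTree n).degree (Fin.succ (Fin.succ (Fin.succ 0))) = 3 := tdeg3
  have d4 : (threeTree n).degree (Fin.succ (Fin.succ (Fin.succ (Fin.succ 0)))) = 1 := tdeg4
  have d5 : (threeTree n).degree (Fin.succ (Fin.succ (Fin.succ (Fin.succ (Fin.succ 0))))) = 1 := tdeg5
  have d6 : (threeTree n).degree (Fin.succ (Fin.succ (Fin.succ (Fin.succ (Fin.succ (Fin.succ 0)))))) = 1 := tdeg6
  have d7 : (threeTree n).degree (Fin.succ (Fin.succ (Fin.succ (Fin.succ (Fin.succ (Fin.succ (Fin.succ 0))))))) = 1 := tdeg7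
  have d8 : (threeTree n).degree (Fin.succ (Fin.succ (Fin.succ (Fin.succ (Fin.succ (Fin.succ (Fin.succ (Fin.succ 0)))))))) = 1 := tdeg8
  have d9 : (threeTree n).degree (Fin.succ (Fin.succ (Fin.succ (Fin.succ (Fin.succ (Fin.succ (Fin.succ (Fin.succ (Fin.succ 0))))))))) = 1 := tdeg9
  have k0 : (![u, v1, v2, v3, p1, q1, p2, q2, p3, q3] : Fin 10 → ℕ) 0 = u := rfl
  have k1 : (![u, v1, v2, v3, p1, q1, p2, q2, p3, q3] : Fin 10 → ℕ) (Fin.succ 0) = v1 := rfl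
  have k2 : (![u, v1, v2, v3, p1, q1, p2, q2, p3, q3] : Fin 10 → ℕ) (Fin.succ (Fin.succ 0)) = v2 := rfl
  have k3 : (![u, v1, v2, v3, p1, q1, p2, q2, p3, q3] : Fin 10 → ℕ) (Fin.succ (Fin.succ (Fin.succ 0))) = v3 := rfl
  have k4 : (![u, v1, v2, v3, p1, q1, p2, q2, p3, q3] : Fin 10 → ℕ) (Fin.succ (Fin.succ (Fin.succ (Fin.succ 0)))) = p1 := rfl
  have k5 : (![u, v1, v2, v3, p1, q1, p2, q2, p3, q3] : Fin 10 → ℕ) (Fin.succ (Fin.succ (Fin.succ (Fin.succ (Fin.succ 0))))) = q1 := rfl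
  have k6 : (![u, v1, v2, v3, p1, q1, p2, q2, p3, q3] : Fin 10 → ℕ) (Fin.succ (Fin.succ (Fin.succ (Fin.succ (Fin.succ (Fin.succ 0)))))) = p2 := rfl
  have k7 : (![u, v1, v2, v3, p1, q1, p2, q2, p3, q3] : Fin 10 → ℕ) (Fin.succ (Fin.succ (Fin.succ (Fin.succ (Fin.succ (Fin.succ (Fin.succ 0))))))) = q2 := rfl
  have k8 : (![u, v1, v2, v3, p1, q1, p2, q2, p3, q3] : Fin 10 → ℕ) (Fin.succ (Fin.succ (Fin.succ (Fin.succ (Fin.succ (Fin.succ (Fin.succ (Fin.succ 0)))))))) = p3 := rfl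
  have k9 : (![u, v1, v2, v3, p1, q1, p2, q2, p3, q3] : Fin 10 → ℕ) (Fin.succ (Fin.succ (Fin.succ (Fin.succ (Fin.succ (Fin.succ (Fin.succ (Fin.succ (Fin.succ 0))))))))) = q3 := rfl
  have k1' : (![u, v1, v2, v3, p1, q1, p2, q2, p3, q3] : Fin 10 → ℕ) 1 = v1 := rfl
  have k2' : (![u, v1, v2, v3, p1, q1, p2, q2, p3, q3] : Fin 10 → ℕ) 2 = v2 := rfl
  have k3' : (![u, v1, v2, v3, p1, q1, p2, q2, p3, q3] : Fin 10 → ℕ) 3 = v3 := rfl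
  simp only [f0, f1, f2, f3, f4, f5, f6, f7, f8, f9, r0, r1, r2, r3, r4, r5, r6, r7, r8, d0, d1, d2, d3, d4, d5, d6, d7, d8, d9, k0, k1, k2, k3, k4, k5, k6, k7, k8, k9, k1', k2', k3', qint_mul_eq r _ _ hr]
  simp only [qint_eq r _ hr]
  have hz1 : (1 : ℤ) - ((3 : ℕ) : ℤ) = -2 := by norm_num
  have hz2 : (1 : ℤ) - ((1 : ℕ) : ℤ) = 0 := by norm_num
  rw [hz1, hz2]
  simp only [zpow_zero, mul_one, one_mul]
  rw [zpow_neg_two (((sm r 1 u / bb r : ℝ) : ℂ)), zpow_neg_two (((sm r 1 v1 / bb r : ℝ) : ℂ)),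
    zpow_neg_two (((sm r 1 v2 / bb r : ℝ) : ℂ)), zpow_neg_two (((sm r 1 v3 / bb r : ℝ) : ℂ))]
  push_cast
  exact alg_three _ _ _ _ _ _ _ _ _ _ _ _ _ _ _ _ _ _ _ _ _ _ _ _ _ _ _ hb hu0 hv1 hv2 hv3

end Pool.Agent.H905.WR
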