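import Mathlib
import Pool.Graph.R_seed8.H524R3.Asym
import Pool.Agent.H905.WR.Low
import Pool.Agent.H905.WR.SemiAsym
import Pool.Agent.H905.WR.ThreeA

/-!
# Growth of the invariants of the second family
-/

set_option autoImplicit false

open Finset Filter Topology

namespace Pool.Agent.H905.WR

open H524R3

theorem sum_three (A : Finset ℕ) (c : ℂ) (f : ℕ → ℂ) :
    ∑ p ∈ A, ∑ q ∈ A, ∑ s ∈ A, c * f p * f q * f s = c * (∑ p ∈ A, f p) ^ 3 := by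
  simp only [← Finset.mul_sum, ← Finset.sum_mul]
  ring

theorem wrt_three (n : ℤ) (r : ℕ) (hr : 2 ≤ r) :
    (threeTree n).wrt r = ∑ u ∈ Icc 1 (r - 1),
      twist r u ^ n * ((((-1 : ℝ) ^ (u + 1)) ^ 3 / sm r 1 u : ℝ) : ℂ) := by
  unfold PlumbingTree.wrt
  simp only [sum_piFinset_cons, sum_piFinset_zero]
  rw [Finset.mul_sum]
  refine Finset.sum_congr rfl fun u hu => ?_
  have hpos : ∀ n ∈ Icc 1 (r - 1), ((sm r 1 n : ℝ) : ℂ) ≠ 0 := by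
    intro n hn
    rw [mem_Icc] at hn
    exact_mod_cast (sm_pos r n hn.1 (by omega)).ne'
  have hu0 := hpos u hu
  have hin : ∀ v1 ∈ Icc 1 (r - 1), ∀ v2 ∈ Icc 1 (r - 1), ∀ v3 ∈ Icc 1 (r - 1),
      ((Real.sqrt (2 / r) * Real.sin (Real.pi / r) : ℝ) : ℂ) ^ (9 + 2) *
        ∑ p1 ∈ Icc 1 (r - 1), ∑ q1 ∈ Icc 1 (r - 1), ∑ p2 ∈ Icc 1 (r - 1), ∑ q2 ∈ Icc 1 (r - 1),
        ∑ p3 ∈ Icc 1 (r - 1), ∑ q3 ∈ Icc 1 (r - 1),
          ((∏ w, (qint r (![u, v1, v2, v3, p1, q1, p2, q2, p3, q3] w) : ℂ)) *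
            (threeTree n).colouredJones r ![u, v1, v2, v3, p1, q1, p2, q2, p3, q3]) =
      (twist r u ^ n / (sm r 1 u : ℝ)) * ((sm r v1 u * wv r v1 : ℝ) : ℂ) *
        ((sm r v2 u * wv r v2 : ℝ) : ℂ) * ((sm r v3 u * wv r v3 : ℝ) : ℂ) := by
    intro v1 hv1 v2 hv2 v3 hv3
    have h1 := hpos v1 hv1
    have h2 := hpos v2 hv2
    have h3 := hpos v3 hv3
    rw [mem_Icc] at hv1 hv2 hv3
    simp only [Finset.mul_sum]
    refine (Finset.sum_congr rfl fun p1 _ => Finset.sum_congr rfl fun q1 _ =>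
      Finset.sum_congr rfl fun p2 _ => Finset.sum_congr rfl fun q2 _ =>
      Finset.sum_congr rfl fun p3 _ => Finset.sum_congr rfl fun q3 _ =>
      term_three n r hr u v1 v2 v3 p1 q1 p2 q2 p3 q3 hu0 h1 h2 h3).trans ?_
    rw [sum_six]
    have l1 := leaf_div r v1 (by omega) (by omega)
    have l2 := leaf_div r v2 (by omega) (by omega)
    have l3 := leaf_div r v3 (by omega) (by omega)
    unfold leaf at l1 l2 l3
    push_cast at l1 l2 l3 ⊢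
    rw [← l1, ← l2, ← l3]
    generalize (∑ a ∈ Icc 1 (r - 1), ((sm r 1 a : ℝ) : ℂ) * ((sm r a v1 : ℝ) : ℂ) * twist r a ^ (2 : ℤ)) = A1
    generalize (∑ a ∈ Icc 1 (r - 1), ((sm r 1 a : ℝ) : ℂ) * ((sm r a v1 : ℝ) : ℂ) * twist r a ^ (-2 : ℤ)) = B1
    generalize (∑ a ∈ Icc 1 (r - 1), ((sm r 1 a : ℝ) : ℂ) * ((sm r a v2 : ℝ) : ℂ) * twist r a ^ (2 : ℤ)) = A2
    generalize (∑ a ∈ Icc 1 (r - 1), ((sm r 1 a : ℝ) : ℂ) * ((sm r a v2 : ℝ) : ℂ) * twist r a ^ (-2 : ℤ)) = B2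
    generalize (∑ a ∈ Icc 1 (r - 1), ((sm r 1 a : ℝ) : ℂ) * ((sm r a v3 : ℝ) : ℂ) * twist r a ^ (2 : ℤ)) = A3
    generalize (∑ a ∈ Icc 1 (r - 1), ((sm r 1 a : ℝ) : ℂ) * ((sm r a v3 : ℝ) : ℂ) * twist r a ^ (-2 : ℤ)) = B3
    generalize twist r u ^ n = T
    generalize ((sm r 1 u : ℝ) : ℂ) = U at hu0 ⊢
    generalize ((sm r 1 v1 : ℝ) : ℂ) = V1 at h1 ⊢
    generalize ((sm r 1 v2 : ℝ) : ℂ) = V2 at h2 ⊢
    generalize ((sm r 1 v3 : ℝ) : ℂ) = V3 at h3 ⊢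
    field_simp
  rw [mul_sum]
  have hstep : ∑ v1 ∈ Icc 1 (r - 1), ((Real.sqrt (2 / r) * Real.sin (Real.pi / r) : ℝ) : ℂ) ^ (9 + 2) *
      ∑ v2 ∈ Icc 1 (r - 1), ∑ v3 ∈ Icc 1 (r - 1),
        ∑ p1 ∈ Icc 1 (r - 1), ∑ q1 ∈ Icc 1 (r - 1), ∑ p2 ∈ Icc 1 (r - 1), ∑ q2 ∈ Icc 1 (r - 1),
        ∑ p3 ∈ Icc 1 (r - 1), ∑ q3 ∈ Icc 1 (r - 1),
          ((∏ w, (qint r (![u, v1, v2, v3, p1, q1, p2, q2, p3, q3] w) : ℂ)) *
            (threeTree n).colouredJones r ![u, v1, v2, v3, p1, q1, p2, q2, p3, q3]) =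
      ∑ v1 ∈ Icc 1 (r - 1), ∑ v2 ∈ Icc 1 (r - 1), ∑ v3 ∈ Icc 1 (r - 1),
        (twist r u ^ n / (sm r 1 u : ℝ)) * ((sm r v1 u * wv r v1 : ℝ) : ℂ) *
        ((sm r v2 u * wv r v2 : ℝ) : ℂ) * ((sm r v3 u * wv r v3 : ℝ) : ℂ) := by
    refine sum_congr rfl fun v1 hv1 => ?_
    rw [mul_sum]
    refine sum_congr rfl fun v2 hv2 => ?_
    rw [mul_sum]
    refine sum_congr rfl fun v3 hv3 => ?_
    exact hin v1 hv1 v2 hv2 v3 hv3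
  refine hstep.trans ?_
  rw [sum_three (Icc 1 (r - 1)) _ (fun v => ((sm r v u * wv r v : ℝ) : ℂ)), ← Complex.ofReal_sum]
  rw [mem_Icc] at hu
  rw [sum_sm_wv r u (by omega) (by omega)]
  push_cast
  ring

end Pool.Agent.H905.WR
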