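import Mathlib
import Pool.Graph.R_seed8.H524R3.Asym
import Pool.Agent.H905.WR.Low
import Pool.Agent.H905.WR.SemiAsym
import Pool.Agent.H905.WR.Three

/-!
# Growth of the invariants of the second family
-/

set_option autoImplicit false

open Finset Filter Topology

namespace Pool.Agent.H905.WR

open H524R3

/-- The cosecants. -/
noncomputable def cc (r i : ℕ) : ℝ := (Real.sin (Real.pi * ((i + 1) / r)))⁻¹

theorem cc_arg (r i : ℕ) (hi : i < r / 2) : 0 < Real.pi * (((i : ℝ) + 1) / r) ∧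
    Real.pi * (((i : ℝ) + 1) / r) ≤ Real.pi / 2 := by
  have h1 : 2 * (i + 1) ≤ r := by omega
  have h2 : 2 * ((i : ℝ) + 1) ≤ r := by exact_mod_cast h1
  have hi0 : (0 : ℝ) ≤ i := Nat.cast_nonneg i
  have hr : (0 : ℝ) < r := by linarith
  have hpi := Real.pi_pos
  constructor
  · positivity
  · have : ((i : ℝ) + 1) / r ≤ 1 / 2 := by
      rw [div_le_div_iff₀ (by positivity) (by norm_num)]; linarith
    nlinarith

theorem cc_sin_pos (r i : ℕ) (hi : i < r / 2) : 0 < Real.sin (Real.pi * (((i : ℝ) + 1) / r)) := by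
  obtain ⟨h1, h2⟩ := cc_arg r i hi
  exact Real.sin_pos_of_pos_of_lt_pi h1 (by linarith [Real.pi_pos])

theorem cc_nonneg (r i : ℕ) (hi : i < r / 2) : 0 ≤ cc r i :=
  inv_nonneg.2 (cc_sin_pos r i hi).le

theorem cc_anti (r i : ℕ) (hi : i + 1 < r / 2) : cc r (i + 1) ≤ cc r i := by
  obtain ⟨h1, h2⟩ := cc_arg r i (by omega)
  obtain ⟨h3, h4⟩ := cc_arg r (i + 1) hi
  unfold cc
  apply inv_anti₀ (cc_sin_pos r i (by omega))
  have h5 : (0 : ℝ) < r := by
    have : 0 < r := by omega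
    exact_mod_cast this
  have hpi := Real.pi_pos
  apply Real.sin_le_sin_of_le_of_le_pi_div_two
  · linarith
  · exact h4
  · apply mul_le_mul_of_nonneg_left _ hpi.le
    apply div_le_div_of_nonneg_right _ h5.le
    push_cast
    linarith

theorem cc_le' (r i : ℕ) (hi : i < r / 2) : cc r i ≤ r / (2 * (i + 1)) := by
  obtain ⟨h1, h2⟩ := cc_arg r i hi
  have h3 := Real.mul_le_sin h1.le h2
  have h5 : (0 : ℝ) < r := by
    have : 0 < r := by omega
    exact_mod_cast this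
  have hpi := Real.pi_pos
  have hi0 : (0 : ℝ) ≤ i := Nat.cast_nonneg i
  have e : 2 / Real.pi * (Real.pi * (((i : ℝ) + 1) / r)) = 2 * ((i : ℝ) + 1) / r := by
    field_simp
  rw [e] at h3
  unfold cc
  refine (inv_anti₀ (by positivity) h3).trans (le_of_eq ?_)
  rw [inv_div]

theorem cc_le (r i : ℕ) (hi : i < r / 2) : cc r i ≤ r / (i + 1) := by
  refine (cc_le' r i hi).trans ?_
  have hi0 : (0 : ℝ) ≤ i := Nat.cast_nonneg i
  have h5 : (0 : ℝ) ≤ r := Nat.cast_nonneg r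
  apply div_le_div_of_nonneg_left h5 (by positivity)
  linarith

theorem le_cc (r i : ℕ) (hi : i < r / 2) : r / Real.pi * (1 / ((i : ℝ) + 1)) ≤ cc r i := by
  obtain ⟨h1, h2⟩ := cc_arg r i hi
  have h3 := Real.sin_le h1.le
  have hi0 : (0 : ℝ) ≤ i := Nat.cast_nonneg i
  have hpi := Real.pi_pos
  have h5 : (0 : ℝ) < r := by
    have : 0 < r := by omega
    exact_mod_cast this
  unfold cc
  refine le_trans (le_of_eq ?_) (inv_anti₀ (cc_sin_pos r i hi) h3)
  field_simp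

theorem sum_inv_ge (I : ℕ) : Real.log ((I : ℝ) + 1) ≤ ∑ j ∈ range I, 1 / ((j : ℝ) + 1) := by
  have h1 := log_add_one_le_harmonic I
  have h2 : ((harmonic I : ℚ) : ℝ) = ∑ j ∈ range I, 1 / ((j : ℝ) + 1) := by
    unfold harmonic; push_cast; simp
  rw [h2] at h1
  exact_mod_cast h1

theorem sum_inv_le (I : ℕ) : ∑ j ∈ range I, 1 / ((j : ℝ) + 1) ≤ 1 + Real.log I := by
  have h1 := harmonic_le_one_add_log I
  have h2 : ((harmonic I : ℚ) : ℝ) = ∑ j ∈ range I, 1 / ((j : ℝ) + 1) := by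
    unfold harmonic; push_cast; simp
  rw [h2] at h1
  exact h1

theorem sum_cc_ge (r : ℕ) (hr : 6 ≤ r) :
    r / (2 * Real.pi) * Real.log r ≤ ∑ i ∈ range (Nat.sqrt r), cc r i := by
  have hr' : (0 : ℝ) < r := by
    have : 0 < r := by omega
    exact_mod_cast this
  have hI := sqrt_lt_half r hr
  have h1 : ∑ i ∈ range (Nat.sqrt r), (r / Real.pi * (1 / ((i : ℝ) + 1))) ≤
      ∑ i ∈ range (Nat.sqrt r), cc r i :=
    sum_le_sum fun i hi => le_cc r i (by rw [mem_range] at hi; omega)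
  refine le_trans ?_ h1
  rw [← mul_sum]
  have h2 := sum_inv_ge (Nat.sqrt r)
  have h3 := log_sqrt r (by omega)
  have hpi := Real.pi_pos
  have h5 : r / (2 * Real.pi) * Real.log r = r / Real.pi * (Real.log r / 2) := by
    field_simp
  rw [h5]
  apply mul_le_mul_of_nonneg_left _ (by positivity)
  linarith

theorem sum_cc_le (r N : ℕ) (hr : 2 ≤ r) (hN : N ≤ r / 2) :
    ∑ i ∈ range N, cc r i ≤ r / 2 * (1 + Real.log r) := by
  have hr' : (0 : ℝ) < r := by
    have : 0 < r := by omega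
    exact_mod_cast this
  have h1 : ∑ i ∈ range N, cc r i ≤ ∑ i ∈ range N, r / 2 * (1 / ((i : ℝ) + 1)) := by
    refine sum_le_sum fun i hi => ?_
    rw [mem_range] at hi
    refine (cc_le' r i (by omega)).trans (le_of_eq ?_)
    have hi0 : (0 : ℝ) ≤ i := Nat.cast_nonneg i
    field_simp
  refine h1.trans ?_
  rw [← mul_sum]
  apply mul_le_mul_of_nonneg_left _ (by positivity)
  refine (sum_inv_le N).trans ?_
  have h2 : Real.log (N : ℝ) ≤ Real.log r := by
    rcases Nat.eq_zero_or_pos N with h | h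
    · rw [h, Nat.cast_zero, Real.log_zero]
      apply Real.log_nonneg
      have : 1 ≤ r := by omega
      exact_mod_cast this
    · apply Real.log_le_log (by exact_mod_cast h)
      have : N ≤ r := by omega
      exact_mod_cast this
  linarith

theorem norm_E_sub (x y : ℝ) : ‖E x - E y‖ ≤ Real.pi * |x - y| := by
  have e : E x - E y = E y * (E (x - y) - 1) := by
    rw [mul_sub, ← E_add, mul_one]
    congr 2
    ring
  rw [e, norm_mul, E_norm, one_mul]
  exact norm_E_sub_one _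

/-- The alternating part. -/
theorem alternating_part (n : ℤ) (r : ℕ) (hr : 6 ≤ r) :
    ‖∑ i ∈ range (r / 2), (-1 : ℂ) ^ i * ((cc r i : ℂ) * E (n / (2 * r) * jj 1 i ^ 2))‖ ≤
      (1 + |(n : ℝ)|) * r := by
  obtain ⟨M, hM⟩ : ∃ M, r / 2 = M + 1 := ⟨r / 2 - 1, by omega⟩
  have hr' : (0 : ℝ) < r := by
    have : 0 < r := by omega
    exact_mod_cast this
  have hpi := Real.pi_pos
  rw [hM]
  refine (alt' (fun i => (cc r i : ℂ) * E (n / (2 * r) * jj 1 i ^ 2)) M).trans ?_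
  have hc : ∀ i < r / 2, ‖(cc r i : ℂ) * E (n / (2 * r) * jj 1 i ^ 2)‖ = cc r i := by
    intro i hi
    rw [norm_mul, E_norm, mul_one, Complex.norm_real, Real.norm_eq_abs, abs_of_nonneg (cc_nonneg r i hi)]
  have hc2 : ∀ i < r / 2, cc r i ≤ r / 2 := by
    intro i hi
    refine (cc_le' r i hi).trans ?_
    have hi0 : (0 : ℝ) ≤ i := Nat.cast_nonneg i
    apply div_le_div_of_nonneg_left hr'.le (by norm_num)
    linarith
  have h0 : ‖(cc r 0 : ℂ) * E (n / (2 * r) * jj 1 0 ^ 2)‖ ≤ r / 2 := by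
    rw [hc 0 (by omega)]; exact hc2 0 (by omega)
  have hMM : ‖(cc r M : ℂ) * E (n / (2 * r) * jj 1 M ^ 2)‖ ≤ r / 2 := by
    rw [hc M (by omega)]; exact hc2 M (by omega)
  have hd : ∀ i ∈ range M, ‖(cc r (i + 1) : ℂ) * E (n / (2 * r) * jj 1 (i + 1) ^ 2) -
      (cc r i : ℂ) * E (n / (2 * r) * jj 1 i ^ 2)‖ ≤ (cc r i - cc r (i + 1)) + 2 * |(n : ℝ)| := by
    intro i hi
    rw [mem_range] at hi
    have e : (cc r (i + 1) : ℂ) * E (n / (2 * r) * jj 1 (i + 1) ^ 2) -
      (cc r i : ℂ) * E (n / (2 * r) * jj 1 i ^ 2) =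
      ((cc r (i + 1) - cc r i : ℝ) : ℂ) * E (n / (2 * r) * jj 1 i ^ 2) +
        (cc r (i + 1) : ℂ) * (E (n / (2 * r) * jj 1 (i + 1) ^ 2) - E (n / (2 * r) * jj 1 i ^ 2)) := by
      push_cast; ring
    rw [e]
    refine (norm_add_le _ _).trans (add_le_add ?_ ?_)
    · rw [norm_mul, E_norm, mul_one, Complex.norm_real, Real.norm_eq_abs, abs_of_nonpos]
      · linarith
      · have := cc_anti r i (by omega)
        linarith
    · rw [norm_mul, Complex.norm_real, Real.norm_eq_abs, abs_of_nonneg (cc_nonneg r (i + 1) (by omega))]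
      have h1 := norm_E_sub (n / (2 * r) * jj 1 (i + 1) ^ 2) (n / (2 * r) * jj 1 i ^ 2)
      have hi0 : (0 : ℝ) ≤ i := Nat.cast_nonneg i
      have h2 : |(n : ℝ) / (2 * r) * jj 1 (i + 1) ^ 2 - n / (2 * r) * jj 1 i ^ 2| =
          |(n : ℝ)| / (2 * r) * (2 * i + 3) := by
        have e2 : (n : ℝ) / (2 * r) * jj 1 (i + 1) ^ 2 - n / (2 * r) * jj 1 i ^ 2 =
            n * ((2 * i + 3) / (2 * r)) := by
          unfold jj; push_cast; ring
        rw [e2, abs_mul, abs_of_nonneg (by positivity : (0 : ℝ) ≤ (2 * i + 3) / (2 * r))]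
        ring
      rw [h2] at h1
      have h3 := cc_le' r (i + 1) (by omega)
      have hn := abs_nonneg (n : ℝ)
      calc cc r (i + 1) * ‖E (n / (2 * r) * jj 1 (i + 1) ^ 2) - E (n / (2 * r) * jj 1 i ^ 2)‖ ≤
          (r / (2 * (((i + 1 : ℕ) : ℝ) + 1))) * (Real.pi * (|(n : ℝ)| / (2 * r) * (2 * i + 3))) :=
            mul_le_mul h3 h1 (norm_nonneg _) (by positivity)
        _ = (Real.pi * (2 * i + 3) / (4 * (i + 2))) * |(n : ℝ)| := by
            push_cast; field_simp; ring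
        _ ≤ 2 * |(n : ℝ)| := by
            apply mul_le_mul_of_nonneg_right _ hn
            rw [div_le_iff₀ (by positivity)]
            nlinarith [Real.pi_lt_four]
  have hsum := sum_le_sum hd
  rw [sum_add_distrib, sum_range_sub', sum_const, card_range, nsmul_eq_mul] at hsum
  have h4 := hc2 0 (by omega)
  have h5 := cc_nonneg r M (by omega)
  have h6 : (M : ℝ) * (2 * |(n : ℝ)|) ≤ r * |(n : ℝ)| := by
    have : 2 * M ≤ r := by omega
    have h7 : 2 * (M : ℝ) ≤ r := by exact_mod_cast this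
    have hn := abs_nonneg (n : ℝ)
    nlinarith
  have hn := abs_nonneg (n : ℝ)
  have h8 : 0 ≤ |(n : ℝ)| * r := by positivity
  show (‖(cc r 0 : ℂ) * E (n / (2 * r) * jj 1 0 ^ 2)‖ + ‖(cc r M : ℂ) * E (n / (2 * r) * jj 1 M ^ 2)‖ +
    ∑ i ∈ range M, ‖(cc r (i + 1) : ℂ) * E (n / (2 * r) * jj 1 (i + 1) ^ 2) -
      (cc r i : ℂ) * E (n / (2 * r) * jj 1 i ^ 2)‖) / 2 ≤ _
  linarith

/-- Splitting of the sum over all colours. -/
theorem sum_split {M : Type*} [AddCommMonoid M] (f : ℕ → M) (r : ℕ) (hr : 2 ≤ r) :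
    ∑ u ∈ Icc 1 (r - 1), f u = ∑ i ∈ range (r / 2), f (i + 1) +
      ∑ i ∈ range (r - 1 - r / 2), f (r - (i + 1)) := by
  have h1 : ∑ u ∈ Icc 1 (r - 1), f u = ∑ i ∈ range (r - 1), f (i + 1) := by
    rw [range_eq_Ico, sum_Ico_add' f 0 (r - 1) 1]
    refine sum_congr ?_ fun _ _ => rfl
    ext x; simp only [mem_Icc, mem_Ico]; omega
  rw [h1]
  have h2 : r - 1 = r / 2 + (r - 1 - r / 2) := by omega
  conv_lhs => rw [h2]
  rw [sum_range_add]
  congr 1
  rw [← sum_range_reflect]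
  refine sum_congr rfl fun i hi => ?_
  rw [mem_range] at hi
  congr 1
  omega

theorem three_sum (n : ℤ) (hn : Odd n) (r : ℕ) (hr : 6 ≤ r) :
    ∃ κ₁ κ₂ : ℂ, ‖κ₁‖ = 1 ∧ ‖κ₂‖ = 1 ∧ (threeTree n).wrt r = (((Real.sqrt (2 / r))⁻¹ : ℝ) : ℂ) *
      (κ₁ * ∑ i ∈ range (r / 2), (-1 : ℂ) ^ i * ((cc r i : ℂ) * E (n / (2 * r) * jj 1 i ^ 2)) +
        κ₂ * ∑ i ∈ range (r - 1 - r / 2), (cc r i : ℂ) * E (n / (2 * r) * jj 1 i ^ 2)) := by
  have hr0 : (r : ℝ) ≠ 0 := by
    have : r ≠ 0 := by omega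
    exact_mod_cast this
  refine ⟨E (-(n / (2 * r))), (-1) ^ (r + 1) * E (n * r / 2 - n / (2 * r)), E_norm _, ?_, ?_⟩
  · rw [norm_mul, norm_pow, norm_neg, norm_one, one_pow, one_mul, E_norm]
  · rw [wrt_three n r (by omega), sum_split _ r (by omega), mul_add]
    congr 1
    · rw [mul_sum, mul_sum]
      refine sum_congr rfl fun i _ => ?_
      have h1 : sm r 1 (i + 1) = Real.sqrt (2 / r) * Real.sin (Real.pi * ((i + 1) / r)) := by
        unfold sm; push_cast; rw [one_mul]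
      have h2 : twist r (i + 1) ^ n = E (-(n / (2 * r))) * E (n / (2 * r) * jj 1 i ^ 2) := by
        rw [twist_zpow, ← E_add]
        congr 1
        unfold jj
        push_cast
        ring
      have h3 : ((-1 : ℝ) ^ (i + 1 + 1)) ^ 3 = (-1) ^ i := by
        rw [← pow_mul]
        have : (i + 1 + 1) * 3 = i + 2 * (i + 3) := by ring
        rw [this, pow_add, pow_mul (-1 : ℝ) 2]
        norm_num
      rw [h1, h2, h3]
      have h4 : (-1 : ℝ) ^ i / (Real.sqrt (2 / r) * Real.sin (Real.pi * ((i + 1) / r))) =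
          (Real.sqrt (2 / r))⁻¹ * ((-1 : ℝ) ^ i * cc r i) := by
        unfold cc
        rw [div_eq_mul_inv, mul_inv]
        ring
      rw [h4]
      push_cast
      ring
    · rw [mul_sum, mul_sum]
      refine sum_congr rfl fun i hi => ?_
      rw [mem_range] at hi
      have hle : i + 1 ≤ r := by omega
      have h1 : sm r 1 (r - (i + 1)) = Real.sqrt (2 / r) * Real.sin (Real.pi * ((i + 1) / r)) := by
        unfold sm
        rw [Nat.cast_sub hle, ← Real.sin_pi_sub]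
        congr 2
        push_cast
        field_simp
        ring
      have h3 : ((-1 : ℝ) ^ (r - (i + 1) + 1)) ^ 3 = (-1) ^ r * (-1) ^ i := by
        rw [← pow_mul, ← pow_add]
        have h : r + i + 2 * (r - i) = (r - (i + 1) + 1) * 3 + 2 * i := by omega
        have h' : (-1 : ℝ) ^ (r + i + 2 * (r - i)) = (-1 : ℝ) ^ ((r - (i + 1) + 1) * 3 + 2 * i) := by
          rw [h]
        rw [pow_add, pow_add _ _ (2 * i), pow_mul _ 2, pow_mul _ 2] at h'
        norm_num at h'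
        rw [h']
      have h2 : twist r (r - (i + 1)) ^ n =
          E (n * r / 2 - n / (2 * r)) * E (n / (2 * r) * jj 1 i ^ 2) * (-1) ^ (i + 1) := by
        rw [twist_zpow, Nat.cast_sub hle, ← E_add]
        have e : (n : ℝ) * ((((r : ℝ) - ((i + 1 : ℕ) : ℝ)) ^ 2 - 1) / (2 * r)) =
            (n * r / 2 - n / (2 * r) + n / (2 * r) * jj 1 i ^ 2) + ((i + 1 : ℕ) : ℝ) * (-n : ℝ) := by
          unfold jj
          push_cast
          field_simp
          ring
        rw [e, E_add]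
        congr 1
        have h5 : E (-n : ℝ) = -1 := by
          have := E_odd (-n) hn.neg
          push_cast at this
          exact this
        rw [← E_pow, h5]
      rw [h1, h2, h3]
      have h4 : (-1 : ℝ) ^ r * (-1) ^ i / (Real.sqrt (2 / r) * Real.sin (Real.pi * ((i + 1) / r))) =
          (Real.sqrt (2 / r))⁻¹ * ((-1 : ℝ) ^ r * (-1) ^ i * cc r i) := by
        unfold cc
        rw [div_eq_mul_inv, mul_inv]
        ring
      rw [h4]
      push_cast
      have h5 : ((-1 : ℂ) ^ (i + 1)) * (-1) ^ i = -1 := by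
        rw [pow_succ]
        have : ((-1 : ℂ) ^ i) * (-1) ^ i = 1 := by rw [← mul_pow]; norm_num
        linear_combination -this
      rw [pow_succ (-1 : ℂ) r]
      linear_combination (E (n * r / 2 - n / (2 * r)) * E (n / (2 * r) * jj 1 i ^ 2) *
        ((Real.sqrt (2 / r) : ℂ))⁻¹ * (-1) ^ r * (cc r i : ℂ)) * h5

theorem norm_three_le (n : ℤ) (hn : Odd n) (r : ℕ) (hr : 6 ≤ r) :
    ‖(threeTree n).wrt r‖ ≤ (Real.sqrt (2 / r))⁻¹ * (r * (1 + Real.log r)) := by
  obtain ⟨κ₁, κ₂, h1, h2, h⟩ := three_sum n hn r hr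
  rw [h, norm_mul, Complex.norm_real, Real.norm_eq_abs, abs_of_nonneg (inv_nonneg.2 (Real.sqrt_nonneg _))]
  apply mul_le_mul_of_nonneg_left _ (inv_nonneg.2 (Real.sqrt_nonneg _))
  refine (norm_add_le _ _).trans ?_
  rw [norm_mul, norm_mul, h1, h2, one_mul, one_mul]
  have h3 : ‖∑ i ∈ range (r / 2), (-1 : ℂ) ^ i * ((cc r i : ℂ) * E (n / (2 * r) * jj 1 i ^ 2))‖ ≤
      ∑ i ∈ range (r / 2), cc r i := by
    refine (norm_sum_le _ _).trans (sum_le_sum fun i hi => ?_)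
    rw [mem_range] at hi
    rw [norm_mul, norm_pow, norm_neg, norm_one, one_pow, one_mul, norm_mul, E_norm, mul_one,
      Complex.norm_real, Real.norm_eq_abs, abs_of_nonneg (cc_nonneg r i hi)]
  have h4 : ‖∑ i ∈ range (r - 1 - r / 2), (cc r i : ℂ) * E (n / (2 * r) * jj 1 i ^ 2)‖ ≤
      ∑ i ∈ range (r - 1 - r / 2), cc r i := by
    refine (norm_sum_le _ _).trans (sum_le_sum fun i hi => ?_)
    rw [mem_range] at hi
    rw [norm_mul, E_norm, mul_one,
      Complex.norm_real, Real.norm_eq_abs, abs_of_nonneg (cc_nonneg r i (by omega))]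
  have h5 := sum_cc_le r (r / 2) (by omega) le_rfl
  have h6 := sum_cc_le r (r - 1 - r / 2) (by omega) (by omega)
  linarith

theorem sqrt_lt_half' (r : ℕ) (hr : 10 ≤ r) : Nat.sqrt r < r - 1 - r / 2 := by
  rw [Nat.sqrt_lt]
  have h : r ≤ 2 * (r - 1 - r / 2) + 2 := by omega
  have h2 : 4 ≤ r - 1 - r / 2 := by omega
  nlinarith

theorem cc_le'' (r i : ℕ) (hr : 10 ≤ r) (hi : i < Nat.sqrt r) :
    cc r i ≤ r / Real.pi * (1 / ((i : ℝ) + 1)) + 1 := by
  have hr' : (10 : ℝ) ≤ r := by exact_mod_cast hr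
  have hI := sqrt_lt_half' r hr
  have hpi := Real.pi_pos
  have hi0 : (0 : ℝ) ≤ i := Nat.cast_nonneg i
  have hsin := cc_sin_pos r i (by omega)
  have hx0 : 0 < Real.pi * (((i : ℝ) + 1) / r) := (cc_arg r i (by omega)).1
  have h1 : ((i : ℝ) + 1) * (i + 1) ≤ r := by
    have : (i + 1) * (i + 1) ≤ r := (Nat.mul_le_mul hi hi).trans (Nat.sqrt_le r)
    exact_mod_cast this
  have hx1 : Real.pi * (((i : ℝ) + 1) / r) ≤ 1 := by
    rw [mul_div_assoc', div_le_one (by linarith)]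
    have h2 : (Real.pi * ((i : ℝ) + 1)) ^ 2 ≤ (r : ℝ) ^ 2 := by
      have h3 : Real.pi ^ 2 ≤ 10 := by nlinarith [Real.pi_lt_d2]
      have h4 : (Real.pi * ((i : ℝ) + 1)) ^ 2 = Real.pi ^ 2 * (((i : ℝ) + 1) * (i + 1)) := by ring
      rw [h4]
      have h5 : Real.pi ^ 2 * (((i : ℝ) + 1) * (i + 1)) ≤ 10 * r :=
        mul_le_mul h3 h1 (by positivity) (by norm_num)
      nlinarith
    exact le_of_sq_le_sq h2 (by linarith)
  have h2 := Real.sin_gt_sub_cube hx0
  set x := Real.pi * (((i : ℝ) + 1) / r) with hx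
  have e : r / Real.pi * (1 / ((i : ℝ) + 1)) + 1 = (1 + x) / x := by
    rw [hx]; field_simp
  rw [e]
  show (Real.sin x)⁻¹ ≤ _
  rw [inv_eq_one_div, div_le_div_iff₀ hsin hx0]
  nlinarith [mul_pos hx0 hx0, mul_pos (mul_pos hx0 hx0) hx0, mul_nonneg hx0.le (sub_nonneg.2 hx1),
    mul_nonneg (mul_pos hx0 hx0).le (sub_nonneg.2 hx1)]

theorem sum_cc_le' (r : ℕ) (hr : 10 ≤ r) :
    ∑ i ∈ range (Nat.sqrt r), cc r i ≤ r / (2 * Real.pi) * Real.log r + 2 * r := by
  have hr' : (0 : ℝ) < r := by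
    have : 0 < r := by omega
    exact_mod_cast this
  have hpi := Real.pi_gt_three
  have h1 : ∑ i ∈ range (Nat.sqrt r), cc r i ≤
      ∑ i ∈ range (Nat.sqrt r), (r / Real.pi * (1 / ((i : ℝ) + 1)) + 1) :=
    sum_le_sum fun i hi => cc_le'' r i hr (mem_range.1 hi)
  refine h1.trans ?_
  rw [sum_add_distrib, ← mul_sum, sum_const, card_range, nsmul_eq_mul, mul_one]
  have h2 := sum_inv_le (Nat.sqrt r)
  have h3 := log_sqrt_le r (by omega)
  have h4 : ((Nat.sqrt r : ℕ) : ℝ) ≤ r := by exact_mod_cast Nat.sqrt_le_self r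
  have h5 : r / Real.pi * ∑ i ∈ range (Nat.sqrt r), 1 / ((i : ℝ) + 1) ≤
      r / Real.pi * (1 + Real.log r / 2) := by
    apply mul_le_mul_of_nonneg_left _ (by positivity)
    linarith
  have h6 : r / Real.pi * (1 + Real.log r / 2) = r / (2 * Real.pi) * Real.log r + r / Real.pi := by
    field_simp
    ring
  have h7 : (r : ℝ) / Real.pi ≤ r := div_le_self hr'.le (by linarith)
  linarith

theorem sqrt_two_div_inv (r : ℕ) (hr : 1 ≤ r) (x : ℝ) :
    (Real.sqrt (2 / r))⁻¹ * (r * x) = 1 / Real.sqrt 2 * (r * Real.sqrt r * x) := by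
  have hr' : (0 : ℝ) < r := by exact_mod_cast hr
  rw [Real.sqrt_div (by norm_num), inv_div]
  ring

/-- Asymptotics of the second family. -/
theorem three_asym (n : ℤ) (hn : Odd n) (r : ℕ) (hr : 10 ≤ r) :
    |‖(threeTree n).wrt r‖ - 1 / (2 * Real.sqrt 2 * Real.pi) * (r * Real.sqrt r * Real.log r)| ≤
      1 / Real.sqrt 2 * (16 * |(n : ℝ)| + 3) * (r * Real.sqrt r) := by
  obtain ⟨κ₁, κ₂, h1, h2, h⟩ := three_sum n hn r (by omega)
  have hr' : (0 : ℝ) < r := by
    have : 0 < r := by omega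
    exact_mod_cast this
  have hpi := Real.pi_pos
  have hn0 : n ≠ 0 := by rintro rfl; simp at hn
  have h3 := alternating_part n r (by omega)
  have h4 := approx_int 1 n r (r - 1 - r / 2) le_rfl (by norm_num) hn0 (by omega) (sqrt_lt_half' r hr)
    (by omega) (cc r) (fun i hi => cc_nonneg r i (by omega)) (fun i hi => cc_anti r i (by omega))
    (fun i hi => cc_le r i (by omega))
  have h5 := sum_cc_ge r (by omega)
  have h6 := sum_cc_le' r hr
  rw [h, norm_mul, Complex.norm_real, Real.norm_eq_abs, abs_of_nonneg (inv_nonneg.2 (Real.sqrt_nonneg _))]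
  set A := ∑ i ∈ range (r / 2), (-1 : ℂ) ^ i * ((cc r i : ℂ) * E (n / (2 * r) * jj 1 i ^ 2)) with hA
  set B := ∑ i ∈ range (r - 1 - r / 2), (cc r i : ℂ) * E (n / (2 * r) * jj 1 i ^ 2) with hB
  have h7 : |‖κ₁ * A + κ₂ * B‖ - ‖B‖| ≤ ‖A‖ := by
    have h8 := abs_norm_sub_norm_le (κ₁ * A + κ₂ * B) (κ₂ * B)
    rw [add_sub_cancel_right, norm_mul κ₁, norm_mul κ₂, h1, h2, one_mul, one_mul] at h8
    exact h8
  have h9 : |‖κ₁ * A + κ₂ * B‖ - r * (1 / (2 * Real.pi) * Real.log r)| ≤ r * (16 * |(n : ℝ)| + 3) := by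
    have e : r / (2 * Real.pi) * Real.log r = r * (1 / (2 * Real.pi) * Real.log r) := by ring
    rw [e] at h5 h6
    rw [abs_le] at h4 h7 ⊢
    have e2 : r * (16 * |(n : ℝ)| + 3) = 15 * |(n : ℝ)| * r + (1 + |(n : ℝ)|) * r + 2 * r := by ring
    rw [e2]
    constructor <;> linarith [h4.1, h4.2, h7.1, h7.2]
  have e1 : 1 / (2 * Real.sqrt 2 * Real.pi) * (r * Real.sqrt r * Real.log r) =
      (Real.sqrt (2 / r))⁻¹ * (r * (1 / (2 * Real.pi) * Real.log r)) := by
    rw [sqrt_two_div_inv r (by omega)]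
    field_simp
  have e2 : 1 / Real.sqrt 2 * (16 * |(n : ℝ)| + 3) * (r * Real.sqrt r) =
      (Real.sqrt (2 / r))⁻¹ * (r * (16 * |(n : ℝ)| + 3)) := by
    rw [sqrt_two_div_inv r (by omega)]
    ring
  rw [e1, e2, ← mul_sub, abs_mul, abs_of_nonneg (inv_nonneg.2 (Real.sqrt_nonneg _))]
  exact mul_le_mul_of_nonneg_left h9 (inv_nonneg.2 (Real.sqrt_nonneg _))

end Pool.Agent.H905.WR
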