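import Mathlib
import Pool.Graph.R_seed8.H524R3.ExpDefs
import Pool.Graph.R_seed8.H524R3.NoExp2
import Pool.Agent.H905.WR.SemiAsym
import Pool.Agent.H905.WR.ThreeAsym

/-!
# No expansions
-/

set_option autoImplicit false

open Finset Filter Topology

namespace Pool.Agent.H905.WR

open H524R3

theorem no_expansion (s c D : ℝ) (hc : 0 < c) (Z : ℕ → ℂ)
    (h : ∀ᶠ r : ℕ in atTop, |‖Z r‖ - c * ((r : ℝ) ^ s * Real.log r)| ≤ D * (r : ℝ) ^ s)
    (ω : ℕ → ℂ) (hω : ∀ k, ‖ω k‖ = 1) : ¬ HasExpansion 2 (fun k => ω k * Z (k + 2)) := by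
  have h1 := not_hasExpansion 2 s (fun n => ω (n - 2) * Z n) (c + |D|) ?_ ?_
  · simpa using h1
  · filter_upwards [h, eventually_ge_atTop 1] with n hn hn1
    have hn' : (1 : ℝ) ≤ n := by exact_mod_cast hn1
    have hl : 0 ≤ Real.log n := Real.log_nonneg hn'
    have hp : 0 ≤ (n : ℝ) ^ s := Real.rpow_nonneg (by linarith) _
    rw [norm_mul, hω, one_mul]
    have h2 := (abs_le.1 hn).2
    have h3 : D * (n : ℝ) ^ s ≤ |D| * (n : ℝ) ^ s := mul_le_mul_of_nonneg_right (le_abs_self D) hp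
    have h4 : 0 ≤ |D| * ((n : ℝ) ^ s * Real.log n) := by positivity
    have h5 : 0 ≤ c * (n : ℝ) ^ s := by positivity
    nlinarith
  · have h2 : Tendsto (fun r : ℕ => c * Real.log (r : ℝ) - D) atTop atTop :=
      tendsto_atTop_add_const_right _ _
        ((Real.tendsto_log_atTop.comp tendsto_natCast_atTop_atTop).const_mul_atTop hc)
    refine tendsto_atTop_mono' _ ?_ h2
    filter_upwards [h, eventually_ge_atTop 1] with n hn hn1
    have hn' : (0 : ℝ) < n := by exact_mod_cast hn1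
    have hp : 0 < (n : ℝ) ^ s := Real.rpow_pos_of_pos hn' _
    rw [norm_mul, hω, one_mul, le_div_iff₀ hp]
    have h3 := (abs_le.1 hn).1
    nlinarith

theorem rpow_half (r : ℕ) : (r : ℝ) ^ (1 / 2 : ℝ) = Real.sqrt r := (Real.sqrt_eq_rpow _).symm

theorem rpow_three_half (r : ℕ) (hr : 1 ≤ r) : (r : ℝ) ^ (3 / 2 : ℝ) = r * Real.sqrt r := by
  have hr' : (0 : ℝ) < r := by exact_mod_cast hr
  rw [Real.sqrt_eq_rpow, show (3 / 2 : ℝ) = 1 + 1 / 2 by norm_num, Real.rpow_add hr', Real.rpow_one]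

theorem semi_final (n : ℤ) (r : ℕ) (hr : 6 ≤ r) :
    |‖(semiTree n).wrt r‖ - (if n = 0 then Real.sqrt 2 / Real.pi else Real.sqrt 2 / (2 * Real.pi)) *
      ((r : ℝ) ^ (1 / 2 : ℝ) * Real.log r)| ≤
      (Real.sqrt 2 * (15 * |(n : ℝ)| + 2)) * (r : ℝ) ^ (1 / 2 : ℝ) := by
  rw [rpow_half]
  by_cases hn : n = 0
  · rw [if_pos hn, hn]
    have := semi_asym_zero r hr
    simpa using this
  · rw [if_neg hn]
    exact semi_asym n hn r hr

theorem three_final (n : ℤ) (hn : Odd n) (r : ℕ) (hr : 10 ≤ r) :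
    |‖(threeTree n).wrt r‖ - 1 / (2 * Real.sqrt 2 * Real.pi) *
      ((r : ℝ) ^ (3 / 2 : ℝ) * Real.log r)| ≤
      (1 / Real.sqrt 2 * (16 * |(n : ℝ)| + 3)) * (r : ℝ) ^ (3 / 2 : ℝ) := by
  rw [rpow_three_half r (by omega)]
  exact three_asym n hn r hr

end Pool.Agent.H905.WR
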